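import Pool.Agent.Y271.RO.Stm

/-! Project RO: task PCB (helper433). -/

set_option autoImplicit false

namespace Pool.Agent.Y433.RO

open MeasureTheory Set Filter Topology
open Pool.Agent.Y271.RO

theorem pk_nonneg (ε : ℝ) (w : ℂ) : 0 ≤ pk ε w := by
  unfold pk
  have := Real.pi_pos
  positivity

theorem pk_le {ε : ℝ} (hε : 0 < ε) (w : ℂ) : pk ε w ≤ 1 / (Real.pi * ε ^ 2) := by
  unfold pk
  have := Real.pi_pos
  rw [div_le_div_iff₀ (by positivity) (by positivity)]
  have h1 : (ε ^ 2) ^ 2 ≤ (‖w‖ ^ 2 + ε ^ 2) ^ 2 := by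
    gcongr
    have := sq_nonneg ‖w‖
    linarith
  have h2 : Real.pi * (ε ^ 2) ^ 2 ≤ Real.pi * (‖w‖ ^ 2 + ε ^ 2) ^ 2 := by gcongr
  nlinarith

theorem pk_cont {ε : ℝ} (hε : 0 < ε) : Continuous (pk ε) := by
  unfold pk
  refine Continuous.div continuous_const (by fun_prop) fun w => ?_
  have := Real.pi_pos
  positivity

theorem norm_pk_le {ε : ℝ} (hε : 0 < ε) (w : ℂ) : ‖pk ε w‖ ≤ 1 / (Real.pi * ε ^ 2) := by
  rw [Real.norm_of_nonneg (pk_nonneg ε w)]
  exact pk_le hε w

/-- the integral of the kernel along one segment -/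
noncomputable def seg (ε : ℝ) (p d w : ℂ) : ℝ := ∫ t in (0:ℝ)..1, pk ε (p + t * d - w)

theorem seg_nonneg (ε : ℝ) (p d w : ℂ) : 0 ≤ seg ε p d w := by
  unfold seg
  exact intervalIntegral.integral_nonneg (by norm_num) fun t _ => pk_nonneg ε _

theorem seg_le {ε : ℝ} (hε : 0 < ε) (p d w : ℂ) : seg ε p d w ≤ 1 / (Real.pi * ε ^ 2) := by
  have h := intervalIntegral.norm_integral_le_of_norm_le_const (a := (0:ℝ)) (b := 1)
    (f := fun t : ℝ => pk ε (p + t * d - w)) (C := 1 / (Real.pi * ε ^ 2))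
    (fun t _ => norm_pk_le hε _)
  have h2 : seg ε p d w ≤ ‖∫ t in (0:ℝ)..1, pk ε (p + t * d - w)‖ := le_abs_self _
  refine h2.trans (h.trans ?_)
  simp

theorem seg_cont {ε : ℝ} (hε : 0 < ε) (p d : ℂ) : Continuous (seg ε p d) := by
  unfold seg
  refine intervalIntegral.continuous_parametric_intervalIntegral_of_continuous' ?_ 0 1
  have h := pk_cont hε
  exact h.comp (by fun_prop)

theorem seg_int {ε : ℝ} (hε : 0 < ε) (p d : ℂ) {h : ℂ → ℝ} (hh : Integrable h) :
    Integrable (fun w => h w * seg ε p d w) := by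
  refine Integrable.mul_bdd (c := 1 / (Real.pi * ε ^ 2)) hh
    (seg_cont hε p d).aestronglyMeasurable (Eventually.of_forall fun w => ?_)
  rw [Real.norm_of_nonneg (seg_nonneg ε p d w)]
  exact seg_le hε p d w

theorem seg_swap {ε : ℝ} (hε : 0 < ε) (p d : ℂ) {h : ℂ → ℝ} (hh : Integrable h) :
    ∫ w, h w * seg ε p d w = ∫ t in (0:ℝ)..1, pw h ε (p + t * d) := by
  unfold seg pw
  rw [intervalIntegral.integral_of_le (by norm_num : (0:ℝ) ≤ 1)]
  simp_rw [intervalIntegral.integral_of_le (by norm_num : (0:ℝ) ≤ 1), ← integral_const_mul]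
  refine integral_integral_swap ?_
  have h1 : Integrable (fun q : ℂ × ℝ => h q.1 * 1)
      ((volume : Measure ℂ).prod (volume.restrict (Ioc (0:ℝ) 1))) :=
    Integrable.mul_prod (f := h) (g := fun _ : ℝ => (1:ℝ)) hh (integrable_const _)
  have h2 : Integrable (fun q : ℂ × ℝ => h q.1 * 1 * pk ε (p + q.2 * d - q.1))
      ((volume : Measure ℂ).prod (volume.restrict (Ioc (0:ℝ) 1))) := by
    refine Integrable.mul_bdd (c := 1 / (Real.pi * ε ^ 2)) h1 ?_
      (Eventually.of_forall fun q => norm_pk_le hε _)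
    exact ((pk_cont hε).comp (by fun_prop)).aestronglyMeasurable
  refine h2.congr (Eventually.of_forall fun q => ?_)
  simp [Function.uncurry]

theorem main : S_PCB := by
  intro h hh hh0 ε hε z m
  have hc : ∀ w, cost (fun y => pk ε (y - w)) z m =
      ∑ j ∈ Finset.range m, ‖z (j + 1) - z j‖ * seg ε (z j) (z (j + 1) - z j) w := fun w => rfl
  have hi : ∀ j ∈ Finset.range m, Integrable
      (fun w => h w * (‖z (j + 1) - z j‖ * seg ε (z j) (z (j + 1) - z j) w)) := by
    intro j _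
    have := (seg_int hε (z j) (z (j + 1) - z j) hh).const_mul ‖z (j + 1) - z j‖
    refine this.congr (Eventually.of_forall fun w => ?_)
    ring
  refine ⟨fun w => ?_, ?_, ?_⟩
  · rw [hc]
    exact Finset.sum_nonneg fun j _ => mul_nonneg (norm_nonneg _) (seg_nonneg _ _ _ _)
  · simp_rw [hc, Finset.mul_sum]
    exact integrable_finset_sum _ hi
  · simp_rw [hc, Finset.mul_sum]
    rw [integral_finset_sum _ hi]
    unfold cost
    refine Finset.sum_congr rfl fun j _ => ?_
    rw [← seg_swap hε _ _ hh, ← integral_const_mul]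
    congr 1
    funext w
    ring

end Pool.Agent.Y433.RO
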